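import Pool.Agent.Lib.H24F.F2
import Pool.Agent.Lib.H24F.TP
import Pool.Agent.Lib.H98W.FIN
import Pool.Agent.Lib.H5CY.F

/-!
# Plane bipartite spanning trees with prescribed degrees, plane transport and plane perfect matchings
# in simple drawings of `K_n`; cylindrical drawings (MP_33911d_co, Q1, partial result)

`A`, `B` are disjoint nonempty sets of vertices of a simple drawing of `K_n`. There are plane spanning trees of the
complete bipartite graph with the sides `A`, `B` (1) with prescribed degrees on `A`, (2) which carry nonnegative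
weights with prescribed positive sums at all vertices of `A` and `B`, (3) which contain a perfect matching of `A` and
`B` if `|A| = |B|`. So every simple drawing of `K_n` has `n / 2` pairwise disjoint edges.

Application of (2) to Q1 (two paths theorem): (4) let `A ∪ B` be the set of all vertices and let `A` and `B` have
Hamiltonian paths whose edges are crossed neither by each other nor by the edges between `A` and `B`. If the weights at
the four ends of the two paths are large, the plane tree of (2) joins the ends of the two paths by two disjoint edges: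
the tree and the two paths are a plane Hamiltonian subdrawing with exactly `2n - 3` edges. (5) In a cylindrical
drawing (all vertices on two concentric circles which the edges do not cross) at most one edge between consecutive
vertices of each circle is crossed, so (4) applies: Q1 holds for all cylindrical drawings.

The drawings are the simple drawings of `Pool/Agent/SimpleDraw/Defs.lean`: arbitrary continuous simple arcs in the
plane `ℂ`, no further hypothesis. The proof is topological: for every plane set `F` of edges which is not 2-connected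
the complex of the plane sets of further edges which do not cross `F` is acyclic (`Pool/Agent/Lib/H98W/FIN.lean`);
then the edges between `A` and `B` form, with their plane subsets, an acyclic complex for all `A`, `B`, and a degree
argument (`Pool/Agent/Lib/H24B`) applies. The crossings in cylindrical drawings are found with the parity of closed
curves (an edge between consecutive vertices and the arc of the circle), `Pool/Agent/Lib/H5CY`.
-/

set_option autoImplicit false

namespace Pool.Agent.Results.MP_33911d_co.BipartiteTrees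

open SimpleDraw

/-- `G` is a plane spanning tree of the complete bipartite graph with the sides `A` and `B`: a plane subdrawing of
`D`, every edge of which joins `A` and `B`, and which is a tree on the vertex set `A ∪ B`. -/
structure PlaneTree {n : ℕ} (D : SimpleDrawing n) (A B : Finset (Fin n)) (G : SimpleGraph (Fin n)) : Prop where
  plane : D.Plane G
  bipartite : ∀ u v, G.Adj u v → (u ∈ A ∧ v ∈ B) ∨ (u ∈ B ∧ v ∈ A)
  tree : (G.induce {v | v ∈ A ∨ v ∈ B}).IsTree

/-- `D` is cylindrical: all vertices lie on two circles around one centre, and every edge lies in a circle around the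
centre or meets the two circles only in its ends. -/
def Cylindrical {n : ℕ} (D : SimpleDrawing n) : Prop :=
  ∃ (c : ℂ) (r R : ℝ), 0 < r ∧ r < R ∧ (∀ i, ‖D.pt i - c‖ = r ∨ ‖D.pt i - c‖ = R) ∧
    ∀ i j, i ≠ j → (∃ ρ : ℝ, ∀ p ∈ D.curve i j, ‖p - c‖ = ρ) ∨
      ∀ p ∈ D.curve i j, (‖p - c‖ = r ∨ ‖p - c‖ = R) → p = D.pt i ∨ p = D.pt j

/-- Let `A`, `B` be disjoint nonempty sets of vertices of a simple drawing of `K_n`.
(1) For all integers `d a ≥ 1`, `a ∈ A`, with sum `|A| + |B| - 1` there is a plane tree between `A` and `B` in which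
every `a ∈ A` has degree `d a`.
(2) For all positive reals `x v`, `v ∈ A ∪ B`, with equal sums over `A` and `B` there are a plane tree between `A` and
`B` and nonnegative weights on its edges with sum `x v` at every vertex `v`.
(3) If `|A| = |B|`, there is a plane tree between `A` and `B` which contains a perfect matching of `A` and `B`; the
edges of the matching are pairwise disjoint curves.
Let `n ≥ 3`.
(4) Let `σ` be an order of the vertices and `0 < m < n`. If no edge `v_i v_(i+1)`, `i + 1 ≠ m`, is crossed by an edge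
`v_j v_k`, `j < m ≤ k`, or by an edge `v_j v_(j+1)`, `j + 1 ≠ m`, then `D` has a plane subdrawing with exactly `2n - 3`
edges that contains a Hamiltonian cycle.
(5) If `D` is cylindrical, `D` has such a subdrawing. -/
theorem result : ∀ (n : ℕ) (D : SimpleDrawing n),
    (∀ A B : Finset (Fin n), Disjoint A B → A.Nonempty → B.Nonempty →
      (∀ d : Fin n → ℕ, (∀ a ∈ A, 1 ≤ d a) → (∑ a ∈ A, d a) + 1 = A.card + B.card →
        ∃ G : SimpleGraph (Fin n), PlaneTree D A B G ∧ ∀ a ∈ A, (G.neighborSet a).ncard = d a) ∧
      (∀ x : Fin n → ℝ, (∀ v ∈ A ∪ B, 0 < x v) → ∑ a ∈ A, x a = ∑ b ∈ B, x b →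
        ∃ G : SimpleGraph (Fin n), PlaneTree D A B G ∧ ∃ w : Fin n → Fin n → ℝ,
          (∀ a b, 0 ≤ w a b) ∧ (∀ a b, w a b ≠ 0 → G.Adj a b) ∧
          (∀ a ∈ A, ∑ b ∈ B, w a b = x a) ∧ (∀ b ∈ B, ∑ a ∈ A, w a b = x b)) ∧
      (A.card = B.card →
        ∃ G : SimpleGraph (Fin n), PlaneTree D A B G ∧ ∃ f : A ≃ B, (∀ a : A, G.Adj a.1 (f a).1) ∧
          ∀ a a' : A, a ≠ a' → Disjoint (D.curve a.1 (f a).1) (D.curve a'.1 (f a').1))) ∧
    (3 ≤ n →
      (∀ (σ : Equiv.Perm (Fin n)) (m : ℕ), 0 < m → m < n →
        (∀ i i' j j' : Fin n, i ≠ j → i ≠ j' → i' ≠ j → i' ≠ j' → (i : ℕ) + 1 = i' → (i' : ℕ) ≠ m →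
          (((j : ℕ) < m ∧ m ≤ (j' : ℕ)) ∨ ((j : ℕ) + 1 = j' ∧ (j' : ℕ) ≠ m)) →
          Disjoint (D.curve (σ i) (σ i')) (D.curve (σ j) (σ j'))) →
        ∃ G : SimpleGraph (Fin n), D.Plane G ∧ G.edgeSet.ncard = 2 * n - 3 ∧
          ∃ (a : Fin n) (p : G.Walk a a), p.IsHamiltonianCycle) ∧
      (Cylindrical D → ∃ G : SimpleGraph (Fin n), D.Plane G ∧ G.edgeSet.ncard = 2 * n - 3 ∧
        ∃ (a : Fin n) (p : G.Walk a a), p.IsHamiltonianCycle)) := by
  intro n D
  have hZ := H98W.hz_table (H53P.table D)
  refine ⟨fun A B hAB hA hB => ⟨fun d hd h => ?_, fun x hx h => ?_, fun h => ?_⟩, fun hn =>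
    ⟨fun σ m hm hmn h => H24F.two_paths_perm hn D σ hm hmn h, fun ⟨c, r, R, h⟩ => H5CY.cyl_q1 hn D h⟩⟩
  · obtain ⟨G, hG, hd'⟩ := H24F.degree_drawing D hZ hAB hA hB hd h
    exact ⟨G, ⟨hG.1, hG.2.1, hG.2.2⟩, hd'⟩
  · obtain ⟨G, hG, hw⟩ := H24F.transport_drawing D hZ hAB hA hB hx h
    exact ⟨G, ⟨hG.1, hG.2.1, hG.2.2⟩, hw⟩
  · obtain ⟨G, hG, hf⟩ := H24F.matching_drawing D hZ hAB hA hB h
    exact ⟨G, ⟨hG.1, hG.2.1, hG.2.2⟩, hf⟩

end Pool.Agent.Results.MP_33911d_co.BipartiteTrees
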