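import Pool.Agent.Lib.H36O.E1
import Pool.Agent.Lib.H36O.E2
import Pool.Agent.Lib.H40C.F2
import Pool.Agent.Lib.H36Q.Mod

/-!
# Q1 for a class of simple drawings of `K_n` which is closed under composition (MP_33911d_co, Q1, partial result)

Write (*) for: the simple drawing `D` of `K_n` has a plane subdrawing with exactly `2n - 3` edges and a Hamiltonian
cycle. The class `𝒬` (`InQ`) is the least class of simple drawings which contains all `D` with an acyclic fan closure and
all `D` with a locally convex vertex, and which is closed under composition along modules and under removing crossings.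

* Fan closure. Orient a Hamiltonian cycle of `K_n`, crossings allowed, from a vertex `s` to a vertex `t` on both sides, and
  take also all arcs into `t`. If two arcs `i → j`, `k → l` cross, add `i → l` and `k → j` (exchange the heads), again
  and again. The condition is that the result has no directed cycle.
* Locally convex vertex `v`. In no `K_5` which contains `v` an edge crosses all three sides of a triangle, and if `bp`
  crosses `vq` and `bq` crosses `vr`, then `bp` crosses `vr`. (In a convex drawing all vertices are locally convex.)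
* Composition. `M` is a module of `D`: no edge in `M` crosses an edge outside `M`, and the edges between `M` and the
  outside behave at `M` and outside like the edges at one vertex. If the drawings on `M` and one vertex outside and on
  the complement of `M` and one vertex of `M` are in `𝒬`, so is `D`.
* Domination. If all crossings of `D` are crossings of a drawing in `𝒬` with the same vertices, `D` is in `𝒬` (helper24).

**Theorem.** Every `D` in `𝒬` has (*). More generally (*) is preserved by composition and domination: a smallest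
counterexample to Q1 has no module `M` with `2 ≤ |M| ≤ n - 2` (and can be chosen with a maximal set of crossings). The class `𝒬` contains all drawings with an order of the vertices such that the edges `v_i v_j`, `v_k v_l` are
disjoint for all `i < j < k < l` (take all increasing arcs); `x`-monotone, radially monotone, twisted and all
generalized twisted drawings have such an order; and `𝒬` contains the strongly c-monotone drawings.

Proof. Let `A` be acyclic and swap closed, `b` a minimal head of a swap closed subset `Y` of `A` and `Z` a plane subset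
of `Y` without arcs into `b`: some arc of `Y` into `b` crosses nothing of `Z` (induction on the tails, six points,
`H71V.good_vertex`). So the plane subsets of `Y` form an acyclic complex. An acyclic minimax theorem (`Lib/H63F`) gives
plane real flows with prescribed degrees (`H36O.transport`), Hall's theorem integral ones; the arcs into `t` give the
other edges. Locally convex vertices: `Lib/H40C`. Composition: take plane Hamiltonian subdrawings `G₁` on `M ∪ {y}` and
`G₂` on `Mᶜ ∪ {a}`, delete `y` and `a`, and join the neighbours of `y` in `G₁` to the neighbours of `a` in `G₂` by a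
plane spanning tree of the complete bipartite graph between them which contains two disjoint edges between the two
neighbours of `y` and the two neighbours of `a` on the cycles (plane transport with large weights at these four
vertices, as in our `BipartiteTrees`). It has `(2|M| - 1) + (2|Mᶜ| - 1) - 1 = 2n - 3` edges.
The drawings are the simple drawings of `Pool/Agent/SimpleDraw/Defs.lean`: arbitrary continuous simple arcs in `ℂ`.
-/

set_option autoImplicit false

namespace Pool.Agent.Results.MP_33911d_co.ClosureTheorem

open SimpleDraw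

/-- the edges `ij` and `kl` cross: `i, j, k, l` are four different vertices and the two curves have a
common point -/
def Crosses {n : ℕ} (D : SimpleDrawing n) (i j k l : Fin n) : Prop :=
  i ≠ j ∧ k ≠ l ∧ i ≠ k ∧ i ≠ l ∧ j ≠ k ∧ j ≠ l ∧ (D.curve i j ∩ D.curve k l).Nonempty

/-- the swap closure of a relation `A` on the vertices (arcs): the least relation which contains `A` and with two
crossing arcs `i → j`, `k → l` also `i → l` (and `k → j`, by symmetry) -/
inductive Closure {n : ℕ} (D : SimpleDrawing n) (A : Fin n → Fin n → Prop) : Fin n → Fin n → Prop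
  | base {i j : Fin n} : A i j → Closure D A i j
  | swap {i j k l : Fin n} : Closure D A i j → Closure D A k l → Crosses D i j k l → Closure D A i l

/-- the arcs of the Hamiltonian cycle `c 0, c 1, …, c (n - 1)` when both paths from `c 0` to `c m` are directed from
`c 0` to `c m`: `c 0 → c 1 → … → c m` and `c 0 → c (n - 1) → c (n - 2) → … → c m` -/
def TourArc {n : ℕ} (c : Equiv.Perm (Fin n)) (m : ℕ) (u v : Fin n) : Prop :=
  ∃ a b : Fin n, u = c a ∧ v = c b ∧
    (((a : ℕ) + 1 = b ∧ (b : ℕ) ≤ m) ∨ ((b : ℕ) + 1 = a ∧ m ≤ (b : ℕ)) ∨ ((a : ℕ) = 0 ∧ (b : ℕ) + 1 = n))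

/-- the arcs `TourArc c m` and all arcs into `c m` -/
def FanArc {n : ℕ} (c : Equiv.Perm (Fin n)) (m : ℕ) (u v : Fin n) : Prop :=
  TourArc c m u v ∨ ∃ l : Fin n, (l : ℕ) = m ∧ v = c l ∧ u ≠ c l

/-- the vertex `v` is locally convex -/
structure LocallyConvex {n : ℕ} (D : SimpleDrawing n) (v : Fin n) : Prop where
  /-- among five vertices, one of them `v`, no edge crosses all three sides of the triangle formed by
  the other three vertices -/
  triangle : ∀ a b c d e : Fin n, [a, b, c, d, e].Nodup → v ∈ [a, b, c, d, e] →
    ¬ (Crosses D a b c d ∧ Crosses D a b d e ∧ Crosses D a b c e)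
  /-- if `bp` crosses `vq` and `bq` crosses `vr`, then `bp` crosses `vr` -/
  trans : ∀ b p q r : Fin n, Crosses D b p v q → Crosses D b q v r → Crosses D b p v r

/-- the subdrawing of `D` on the vertices `f 0, f 1, …` -/
def sub {n k : ℕ} (D : SimpleDrawing n) (f : Fin k ↪ Fin n) : SimpleDrawing k where
  pt i := D.pt (f i)
  curve i j := D.curve (f i) (f j)
  pt_inj := (H36Q.sub D f).pt_inj
  curve_symm := (H36Q.sub D f).curve_symm
  arc := (H36Q.sub D f).arc
  vertex := (H36Q.sub D f).vertex
  inter := (H36Q.sub D f).inter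
  proper := (H36Q.sub D f).proper

/-- `M` is a module of `D`: no edge inside `M` crosses an edge outside `M`; whether an edge inside `M` crosses an edge
from `M` to a vertex `y` outside does not depend on `y`; whether an edge outside `M` crosses an edge from a vertex
outside to `a ∈ M` does not depend on `a` -/
structure IsModule {n : ℕ} (D : SimpleDrawing n) (M : Set (Fin n)) : Prop where
  apart : ∀ a ∈ M, ∀ b ∈ M, ∀ y ∉ M, ∀ z ∉ M, ¬ Crosses D a b y z
  inside : ∀ a ∈ M, ∀ b ∈ M, ∀ c ∈ M, ∀ y ∉ M, ∀ z ∉ M, Crosses D a b c y → Crosses D a b c z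
  outside : ∀ x ∉ M, ∀ y ∉ M, ∀ z ∉ M, ∀ a ∈ M, ∀ b ∈ M, Crosses D x y z a → Crosses D x y z b

/-- The class `𝒬` of simple drawings of complete graphs: the least class which contains
* the drawings for which the swap closure of some `FanArc c m` has no directed cycle,
* the drawings with a locally convex vertex,
* with the subdrawings on `M ∪ {y}` and on `Mᶜ ∪ {a}`, where `M` is a module, `a ∈ M` and `y ∉ M`, the whole drawing,
* with `D'` all drawings `D` whose crossings are crossings of `D'`. -/
inductive InQ : {n : ℕ} → SimpleDrawing n → Prop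
  | fan {n : ℕ} (D : SimpleDrawing n) (c : Equiv.Perm (Fin n)) (m : ℕ) : 3 ≤ n → 0 < m → m < n →
      (∀ v, ¬ Relation.TransGen (Closure D (FanArc c m)) v v) → InQ D
  | convex {n : ℕ} (D : SimpleDrawing n) (v : Fin n) : 3 ≤ n → LocallyConvex D v → InQ D
  | comp {n k l : ℕ} (D : SimpleDrawing n) (M : Set (Fin n)) (a y : Fin n) (f : Fin k ↪ Fin n)
      (g : Fin l ↪ Fin n) : IsModule D M → a ∈ M → y ∉ M → Set.range f = insert y M →
      Set.range g = insert a Mᶜ → InQ (sub D f) → InQ (sub D g) → InQ D
  | dom {n : ℕ} (D D' : SimpleDrawing n) : (∀ i j k l, Crosses D i j k l → Crosses D' i j k l) → InQ D' → InQ D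

theorem three_le_of_ham {n : ℕ} {D : SimpleDrawing n} (h : D.HasPlaneHamiltonian) : 3 ≤ n := by
  obtain ⟨G, -, -, a, c, hc⟩ := h
  have h1 := hc.length_eq
  rw [Fintype.card_fin] at h1
  have h2 := hc.isCycle.three_le_length
  omega

theorem star_comp {n k l : ℕ} {D : SimpleDrawing n} {M : Set (Fin n)} {a y : Fin n} {f : Fin k ↪ Fin n}
    {g : Fin l ↪ Fin n} (hM : IsModule D M) (ha : a ∈ M) (hy : y ∉ M) (hf : Set.range f = insert y M)
    (hg : Set.range g = insert a Mᶜ) (ihf : (sub D f).HasPlaneHamiltonian) (ihg : (sub D g).HasPlaneHamiltonian) :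
    D.HasPlaneHamiltonian := by
  classical
  have hk := three_le_of_ham ihf
  have hl := three_le_of_ham ihg
  let M' : Finset (Fin n) := Finset.univ.filter (· ∈ M)
  let O' : Finset (Fin n) := Finset.univ.filter (· ∉ M)
  have mM : ∀ x, x ∈ M' ↔ x ∈ M := fun x => by simp [M']
  have mO : ∀ x, x ∈ O' ↔ x ∉ M := fun x => by simp [O']
  have c1 : ((insert y M' : Finset (Fin n)) : Set (Fin n)) = Set.range f := by
    rw [hf, Finset.coe_insert]
    congr 1
    ext x
    exact mM x
  have c2 : ((insert a O' : Finset (Fin n)) : Set (Fin n)) = Set.range g := by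
    rw [hg, Finset.coe_insert]
    congr 1
    ext x
    exact mO x
  have n1 := H36Q.card_of_range c1
  have n2 := H36Q.card_of_range c2
  rw [Finset.card_insert_of_notMem (by rw [mM]; exact hy)] at n1
  rw [Finset.card_insert_of_notMem (by rw [mO]; exact fun h => h ha)] at n2
  exact H36Q.module_drawing D M' O'
    (Finset.disjoint_left.2 fun x h1 h2 => (mO x).1 h2 ((mM x).1 h1))
    (Finset.eq_univ_iff_forall.2 fun x => by
      rw [Finset.mem_union, mM, mO]
      exact Classical.em _)
    (by omega) (by omega) ((mM a).2 ha) ((mO y).2 hy)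
    (fun a ha b hb y hy z hz => hM.apart a ((mM a).1 ha) b ((mM b).1 hb) y ((mO y).1 hy) z ((mO z).1 hz))
    (fun a ha b hb c hc y hy z hz => hM.inside a ((mM a).1 ha) b ((mM b).1 hb) c ((mM c).1 hc)
      y ((mO y).1 hy) z ((mO z).1 hz))
    (fun x hx y hy z hz a ha b hb => hM.outside x ((mO x).1 hx) y ((mO y).1 hy) z ((mO z).1 hz)
      a ((mM a).1 ha) b ((mM b).1 hb))
    (H36Q.star_of_sub c1 ihf) (H36Q.star_of_sub c2 ihg)

theorem star_dom {n : ℕ} {D D' : SimpleDrawing n} (h : ∀ i j k l, Crosses D i j k l → Crosses D' i j k l)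
    (h' : D'.HasPlaneHamiltonian) : D.HasPlaneHamiltonian := by
  obtain ⟨G, hG, h2, h3⟩ := h'
  exact ⟨G, H63L.plane_of_table D G fun i j k l hij hkl => H36Q.X_false fun hX =>
    H36Q.not_cr_of_plane hG hij hkl (h i j k l hX), h2, h3⟩

theorem main {n : ℕ} {D : SimpleDrawing n} (h : InQ D) : D.HasPlaneHamiltonian := by
  classical
  induction h with
  | fan D c m hn hm hmn hac =>
    obtain ⟨r, hr⟩ := H94C.exists_rank hac
    obtain ⟨G, h1, -, h2, h3⟩ := H36O.tour_exact hn D hr (fun i j k l h1 h2 h3 => Closure.swap h1 h2 h3) c hm hmn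
      (fun a b hab => Closure.base (Or.inl ⟨a, b, rfl, rfl, hab⟩))
      (fun l hl v hv => Closure.base (Or.inr ⟨l, hl, rfl, hv⟩))
    exact ⟨G, h1, h2, h3⟩
  | convex D v hn hv =>
    have hX : ∀ i j k l, (H53P.table D).X i j k l = true ↔ Crosses D i j k l := by
      intro i j k l
      rw [H53P.table_X]
      unfold H53P.X Crosses
      exact @decide_eq_true_iff _ (Classical.dec _)
    obtain ⟨G, h1, -, h3, h4⟩ := H40C.final hn D v
      ⟨fun a b c d e hnd hmem => by
        rw [hX, hX, hX]
        exact hv.triangle a b c d e hnd hmem,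
      fun b p q r => by
        rw [hX, hX, hX]
        exact hv.trans b p q r⟩
    exact ⟨G, h1, h3, h4⟩
  | comp D M a y f g hM ha hy hf hg _ _ ihf ihg => exact star_comp hM ha hy hf hg ihf ihg
  | dom D D' h _ ih => exact star_dom h ih

/-- `σ 0, …, σ (n - 1)` is an order of the vertices without separated crossings: if all ends of one edge come before all
ends of another edge, the two edges are disjoint. -/
def NoSeparatedCrossing {n : ℕ} (D : SimpleDrawing n) (σ : Equiv.Perm (Fin n)) : Prop :=
  ∀ i j k l : Fin n, i < j → j < k → k < l → Disjoint (D.curve (σ i) (σ j)) (D.curve (σ k) (σ l))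

/-- generalized twisted: for some point `O`, every edge is met at most once by each ray from `O` (`IsPolarArc`: it
is a curve `O + ρ(θ) e^{iθ}`, `α ≤ θ ≤ β < α + 2π`, with `ρ > 0` continuous), and some ray from `O` contains no vertex
and meets all edges -/
def GeneralizedTwisted {n : ℕ} (D : SimpleDrawing n) : Prop :=
  ∃ (O : ℂ) (θ₀ : ℝ), (∀ i j, i ≠ j → IsPolarArc O (D.curve i j) (D.pt i) (D.pt j)) ∧
    (∀ (i : Fin n) (r : ℝ), 0 ≤ r → polar O r θ₀ ≠ D.pt i) ∧
    ∀ i j, i ≠ j → ∃ r : ℝ, 0 ≤ r ∧ polar O r θ₀ ∈ D.curve i j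

/-- `A` is acyclic, swap closed, and has at most one source `s` and at most one sink `t`. (If `ij` crosses `kl`, then
`kl` crosses `ij`, so `swap` also gives `A k j`.) -/
structure Net {n : ℕ} (D : SimpleDrawing n) (A : Fin n → Fin n → Prop) : Prop where
  acyclic : ∀ v, ¬ Relation.TransGen A v v
  swap : ∀ i j k l, A i j → A k l → Crosses D i j k l → A i l
  source : ∃ s, ∀ v, v ≠ s → ∃ w, A w v
  sink : ∃ t, ∀ v, v ≠ t → ∃ w, A v w

theorem acyclic_of_rank {n : ℕ} {D : SimpleDrawing n} {A B : Fin n → Fin n → Prop} {r : Fin n → ℕ}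
    (hr : ∀ i j, B i j → r i < r j) (hsw : ∀ i j k l, B i j → B k l → Crosses D i j k l → B i l)
    (hAB : ∀ i j, A i j → B i j) (v : Fin n) : ¬ Relation.TransGen (Closure D A) v v := by
  intro hv
  have h1 : ∀ i j, Closure D A i j → B i j := by
    intro i j hij
    induction hij with
    | base h2 => exact hAB _ _ h2
    | swap _ _ h2 h3 h4 => exact hsw _ _ _ _ h3 h4 h2
  have h2 : ∀ i j, Relation.TransGen (Closure D A) i j → r i < r j := by
    intro i j hij
    induction hij with
    | single h3 => exact hr _ _ (h1 _ _ h3)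
    | tail _ h3 h4 => exact h4.trans (hr _ _ (h1 _ _ h3))
  exact lt_irrefl _ (h2 v v hv)

theorem inQ_of_order {n : ℕ} (hn : 3 ≤ n) {D : SimpleDrawing n} {σ : Equiv.Perm (Fin n)}
    (h : NoSeparatedCrossing D σ) : InQ D := by
  refine InQ.fan D σ (n - 1) hn (by omega) (by omega)
    (acyclic_of_rank (B := fun i j => σ.symm i < σ.symm j) (r := fun i => (σ.symm i : ℕ))
      (fun i j hij => hij) ?_ ?_)
  · intro i j k l hij hkl hX
    by_contra hil
    rw [not_lt] at hil
    have h1 : σ.symm l ≠ σ.symm i := fun e => hX.2.2.2.1 (σ.symm.injective e).symm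
    have h2 : σ.symm l < σ.symm i := lt_of_le_of_ne hil h1
    have h3 := h _ _ _ _ hkl h2 hij
    simp only [Equiv.apply_symm_apply] at h3
    obtain ⟨p, hp1, hp2⟩ := hX.2.2.2.2.2.2
    exact Set.disjoint_left.1 h3 hp2 hp1
  · rintro i j (⟨a, b, rfl, rfl, hab⟩ | ⟨l, hl, rfl, hi⟩)
    · simp only [Equiv.symm_apply_apply]
      have ha := a.2
      have hb := b.2
      rcases hab with ⟨h1, h2⟩ | ⟨h1, h2⟩ | ⟨h1, h2⟩
      · exact Fin.lt_def.2 (by omega)
      · omega
      · exact Fin.lt_def.2 (by omega)
    · simp only [Equiv.symm_apply_apply]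
      have h1 : σ.symm i ≠ l := fun e => hi (by rw [← e, Equiv.apply_symm_apply])
      have h2 := (σ.symm i).2
      have h3 : ((σ.symm i : Fin n) : ℕ) ≠ (l : ℕ) := fun e => h1 (Fin.ext e)
      exact Fin.lt_def.2 (by omega)

theorem inQ_of_scm {n : ℕ} (hn : 3 ≤ n) {D : SimpleDrawing n} (h : D.StronglyCMonotone) : InQ D := by
  obtain ⟨c, m, A, r, hm, hmn, hr, hsw, hA, hfan⟩ := H36O.scm_net hn D h
  refine InQ.fan D c m hn hm hmn (acyclic_of_rank hr hsw ?_)
  rintro i j (⟨a, b, rfl, rfl, hab⟩ | ⟨l, hl, rfl, hv⟩)
  · exact hA a b hab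
  · exact hfan l hl _ hv

/-- **Main result.** (A) Every simple drawing of the class `𝒬` (`InQ`) has a plane subdrawing with exactly `2n - 3`
edges and a Hamiltonian cycle. (B) Let `M` be a module of `D`, `a ∈ M`, `y ∉ M`. If the subdrawings on `M ∪ {y}` and
on `Mᶜ ∪ {a}` have such a plane subdrawing (`SimpleDraw.SimpleDrawing.HasPlaneHamiltonian`), so does `D`. If `D'` has
one and all crossings of `D` are crossings of `D'`, so does `D`.
(C) Let `D` be a simple drawing of `K_n`, `n ≥ 3`.
(1) If `σ` is an order of the vertices without separated crossings, then `D` is in `𝒬`, and for any two different vertices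
`s`, `t` there is a plane subdrawing with a Hamiltonian path from `s` to `t`.
(2) If a real function `g` on the plane has different values at different vertices and on every edge only values
between its values at the two ends, `D` has an order without separated crossings.
(3) If `D` is generalized twisted, it has an order without separated crossings.
(4) If `D` is strongly c-monotone (`SimpleDraw.SimpleDrawing.StronglyCMonotone`: for some point `O` every edge is a
polar arc around `O`, and any two edges are missed by a common ray from `O`), it is in `𝒬`.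
(5) Let `c` be an order of the vertices and `0 < m < n`. If the swap closure of the arcs of the Hamiltonian cycle
`c 0, …, c (n - 1)`, directed from `c 0` to `c m` on both sides, has no directed cycle, then there is a plane
subdrawing, all of whose edges belong to the closure, with a Hamiltonian cycle.
(6) Let `A` be acyclic and swap closed with one source and one sink. For all natural numbers `x i j`, zero unless
`A i j`, there are natural numbers `y i j`, zero unless `A i j`, with the same row sums and the same column sums, such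
that the edges `ij` with `y i j ≠ 0` belong to a plane subdrawing. -/
theorem result :
    (∀ (n : ℕ) (D : SimpleDrawing n), InQ D → ∃ G : SimpleGraph (Fin n), D.Plane G ∧
      G.edgeSet.ncard = 2 * n - 3 ∧ ∃ (a : Fin n) (p : G.Walk a a), p.IsHamiltonianCycle) ∧
    (∀ (n k l : ℕ) (D : SimpleDrawing n) (M : Set (Fin n)) (a y : Fin n) (f : Fin k ↪ Fin n) (g : Fin l ↪ Fin n),
      IsModule D M → a ∈ M → y ∉ M → Set.range f = insert y M → Set.range g = insert a Mᶜ →
      (sub D f).HasPlaneHamiltonian → (sub D g).HasPlaneHamiltonian → D.HasPlaneHamiltonian) ∧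
    (∀ (n : ℕ) (D D' : SimpleDrawing n), (∀ i j k l, Crosses D i j k l → Crosses D' i j k l) →
      D'.HasPlaneHamiltonian → D.HasPlaneHamiltonian) ∧
    ∀ (n : ℕ) (D : SimpleDrawing n), 3 ≤ n →
      (∀ σ : Equiv.Perm (Fin n), NoSeparatedCrossing D σ → InQ D ∧
        ∀ s t : Fin n, s ≠ t → ∃ G : SimpleGraph (Fin n), D.Plane G ∧ ∃ p : G.Walk s t, p.IsHamiltonian) ∧
      (∀ g : ℂ → ℝ, (∀ i j, g (D.pt i) = g (D.pt j) → i = j) →
        (∀ i j, i ≠ j → ∀ p ∈ D.curve i j, min (g (D.pt i)) (g (D.pt j)) ≤ g p ∧
          g p ≤ max (g (D.pt i)) (g (D.pt j))) →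
        ∃ σ : Equiv.Perm (Fin n), NoSeparatedCrossing D σ) ∧
      (GeneralizedTwisted D → ∃ σ : Equiv.Perm (Fin n), NoSeparatedCrossing D σ) ∧
      (D.StronglyCMonotone → InQ D) ∧
      (∀ (c : Equiv.Perm (Fin n)) (m : ℕ), 0 < m → m < n →
        (∀ v, ¬ Relation.TransGen (Closure D (TourArc c m)) v v) →
        ∃ G : SimpleGraph (Fin n), D.Plane G ∧
          (∀ i j, G.Adj i j → Closure D (TourArc c m) i j ∨ Closure D (TourArc c m) j i) ∧
          ∃ (a : Fin n) (p : G.Walk a a), p.IsHamiltonianCycle) ∧
      ∀ A : Fin n → Fin n → Prop, Net D A → ∀ x : Fin n → Fin n → ℕ, (∀ i j, x i j ≠ 0 → A i j) →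
        ∃ (G : SimpleGraph (Fin n)) (y : Fin n → Fin n → ℕ), D.Plane G ∧
          (∀ i j, y i j ≠ 0 → A i j ∧ G.Adj i j) ∧ (∀ i, ∑ j, y i j = ∑ j, x i j) ∧
          ∀ j, ∑ i, y i j = ∑ i, x i j := by
  refine ⟨fun n D h => main h, fun n k l D M a y f g h1 h2 h3 h4 h5 h6 h7 => star_comp h1 h2 h3 h4 h5 h6 h7,
    fun n D D' h h' => star_dom h h', fun n D hn => ⟨fun σ h => ⟨inQ_of_order hn h, H36O.drawing_paths D σ h⟩,
    fun g h1 h2 => H36O.ord_of_level D g h1 h2, fun h => H36O.ord_of_twisted (by omega) D h,
    fun h => inQ_of_scm hn h, fun c m hm hmn hac => ?_, fun A hA x hx => ?_⟩⟩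
  · obtain ⟨r, hr⟩ := H94C.exists_rank hac
    exact H36O.tour_drawing hn D hr (fun i j k l h1 h2 h3 => Closure.swap h1 h2 h3) c hm hmn
      (fun a b hab => Closure.base ⟨a, b, rfl, rfl, hab⟩)
  · obtain ⟨r, hr⟩ := H94C.exists_rank hA.acyclic
    obtain ⟨s, hs⟩ := hA.source
    obtain ⟨t, ht⟩ := hA.sink
    obtain ⟨z, h1, h2, h3, h4, -⟩ := H36O.net_drawing D hr hA.swap hs ht x hx
    exact ⟨H36O.gz z, z, h1, fun i j hij =>
      ⟨h2 i j hij, H36O.gz_adj.2 ⟨fun h => hA.acyclic i (Relation.TransGen.single (by
        have h5 := h2 i j hij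
        rw [← h] at h5
        exact h5)), Or.inl hij⟩⟩, h3, h4⟩

end Pool.Agent.Results.MP_33911d_co.ClosureTheorem
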