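import Pool.Agent.Lib.H47Y.V

/-!
# Plane theta graphs through every edge, exactly `2n - 3` edges, in simple drawings of `K_n` (MP_33911d_co, Q1, partial
# result)

Q1 asks for a plane subdrawing with exactly `2n - 3` edges and a Hamiltonian cycle in every simple drawing of `K_n`.
Here one theorem with a parameter `M ≥ 0`, for every simple drawing `D` of `K_n`, `n ≥ 3`, and every edge `st` of `D`:
some plane subdrawing with exactly `2n - 3` edges contains the edge `st` and at most `M + 2` internally disjoint paths
from `s` to `t` which together visit all vertices, or it has a fractional version of `M + 2` such paths which does not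
use the edge `st`. The second case is impossible for `M > n - 4`:
* for every edge `st` of `D` there is a plane subdrawing with exactly `2n - 3` edges which contains `st` and internally
  disjoint paths from `s` to `t` which together visit all vertices (a Hamiltonian cycle if one or two paths are enough).
For `M = 0` the first case is a Hamiltonian cycle, and the theorem says more:
* for every edge `st` of `D` there is a plane subdrawing with exactly `2n - 3` edges which contains a Hamiltonian cycle
  (the assertion of Q1 for `D`) or a 3-connected subgraph without the edge `st` which is the support of a fractional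
  Hamiltonian cycle without nontrivial tight cuts;
* in both cases it contains a spanning tree of maximum degree at most `3`.

The drawings are the simple drawings of `Pool/Agent/SimpleDraw/Defs.lean`: arbitrary continuous simple arcs in the
plane `ℂ`, no further hypothesis. Proof (written out in `Pool/Agent/Lib/H47T/PROOF.md`, `Pool/Agent/Lib/H47X/PROOF.md` and
`Pool/Agent/Lib/H47Y/PROOF.md`): for every disconnected plane set `F` of edges the complex of the plane sets of further
edges which do not cross `F` is acyclic (`Pool/Agent/Lib/H98W/FIN.lean`). In the game in which one player chooses an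
edge `e` and the other one a vertex or a nontrivial cut `S` without `s`, the payoff is `1` if `e` crosses `S`, minus the
requirement of `S` (`2`, but `M + 2` if `S` separates `s` and `t`) divided by the total weight `n + M`. A minimax
argument for chain maps is applied to this game with two copies of every vertex and cut, the second of which may be used
only over feasible points. If no plane set with `2n - 3` edges is as claimed, it gives a chain map from the plane sets
to the laminar families of cuts, which have at most `2n - 4` members, and this chain map contradicts the Lefschetz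
fixed point formula.
-/

set_option autoImplicit false

namespace Pool.Agent.Results.MP_33911d_co.ThetaThroughEveryEdge

open SimpleDraw

/-- The lists in `L` are the inner vertices, in order, of internally disjoint paths from `s` to `t` in the graph `G`
which have at least one inner vertex and together visit all vertices: no list is empty, the concatenation of the lists
has no repetition and consists of all vertices except `s` and `t`, and for each list `l` in `L` consecutive terms of
`s, l, t` are adjacent in `G`. -/
structure SpanningPaths {n : ℕ} (G : SimpleGraph (Fin n)) (s t : Fin n) (L : List (List (Fin n))) : Prop where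
  nonempty : ∀ l ∈ L, l ≠ []
  nodup : L.flatten.Nodup
  mem : ∀ v, v ∈ L.flatten ↔ v ≠ s ∧ v ≠ t
  chain : ∀ l ∈ L, (s :: (l ++ [t])).IsChain G.Adj

/-- Weights on the edges of `G` (`y a b = y b a ≥ 0`, zero if `ab` is not an edge of `G`) with `y s t = 0`. Their sum is
`M + 2` at `s` and at `t` and `2` at every other vertex; every cut has weight at least `2`, and at least `M + 2` if it
separates `s` and `t`. -/
structure PathWeights {n : ℕ} (G : SimpleGraph (Fin n)) (s t : Fin n) (M : ℝ) (y : Fin n → Fin n → ℝ) : Prop where
  nonneg : ∀ a b, 0 ≤ y a b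
  symm : ∀ a b, y a b = y b a
  zero : ∀ a b, ¬ G.Adj a b → y a b = 0
  edge : y s t = 0
  sum : ∀ a, ∑ b, y a b = if a = s ∨ a = t then M + 2 else 2
  cut : ∀ S : Finset (Fin n), S.Nonempty → S ≠ Finset.univ →
    (if (s ∈ S ↔ t ∈ S) then 2 else M + 2) ≤ ∑ a ∈ S, ∑ b ∈ Sᶜ, y a b

/-- A fractional Hamiltonian cycle without nontrivial tight cuts and with support `H`: `y a b = y b a` lies strictly
between `0` and `1` for the edges `ab` of `H` and is zero for the other pairs, the sum is `2` at every vertex and more
than `2` across every cut with at least two vertices on both sides. -/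
structure StrictWeights {n : ℕ} (H : SimpleGraph (Fin n)) (y : Fin n → Fin n → ℝ) : Prop where
  symm : ∀ a b, y a b = y b a
  zero : ∀ a b, ¬ H.Adj a b → y a b = 0
  lt : ∀ a b, H.Adj a b → 0 < y a b ∧ y a b < 1
  sum : ∀ a, ∑ b, y a b = 2
  cut : ∀ S : Finset (Fin n), 2 ≤ S.card → 2 ≤ Sᶜ.card → 2 < ∑ a ∈ S, ∑ b ∈ Sᶜ, y a b

/-- Let `n ≥ 3`, let `D` be a simple drawing of `K_n`, let `st` be an edge of it and let `M ≥ 0` be a real number. Then
`D` has a plane subdrawing `G` with exactly `2n - 3` edges such that
(a) `G` contains the edge `st` and at most `M + 2` internally disjoint paths from `s` to `t` which together visit all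
vertices, or
(b) `M ≤ n - 4` and `G` has weights as in `PathWeights`.
Moreover, if `M = 0`, then `G` contains a spanning tree of maximum degree at most `3`, and `G` contains a Hamiltonian
cycle (the assertion of Q1 for `D`) or a subgraph `H` without the edge `st` with the following properties. `H` is the
support of `StrictWeights` and 3-connected (`H - X` is connected for all sets `X` of at most two vertices). For every
set `X` of at least two vertices `H - X` has fewer than `|X|` components, unless every edge of `H` has exactly one end
in `X`. From every vertex there is a closed walk in `H` with at most `3n/2 - 1` steps which visits every vertex once or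
twice. `H` has a subgraph of maximum degree at most `2` with at least `8n/9` edges. For `n ≥ 5` some Hamiltonian cycle
of `K_n` (the image of the cycle `C_n` under a permutation `σ` of the vertices) has at least `4n/5` of its edges in
`H`. -/
theorem result : ∀ n : ℕ, 3 ≤ n → ∀ D : SimpleDrawing n, ∀ s t : Fin n, s ≠ t → ∀ M : ℝ, 0 ≤ M →
    ∃ G : SimpleGraph (Fin n), D.Plane G ∧ G.edgeSet.ncard = 2 * n - 3 ∧
      ((G.Adj s t ∧ ∃ L, SpanningPaths G s t L ∧ (L.length : ℝ) ≤ M + 2) ∨
      (M + 4 ≤ n ∧ ∃ y, PathWeights G s t M y)) ∧
      (M = 0 → (∃ T ≤ G, T.IsTree ∧ ∀ v, (T.neighborSet v).ncard ≤ 3) ∧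
        ((∃ (a : Fin n) (c : G.Walk a a), c.IsHamiltonianCycle) ∨
        ∃ H ≤ G, ¬ H.Adj s t ∧ (∃ y, StrictWeights H y) ∧
        (∀ X : Finset (Fin n), X.card ≤ 2 → (H.induce {v | v ∉ X}).Connected) ∧
        (∀ X : Finset (Fin n), 2 ≤ X.card → (∃ a b, H.Adj a b ∧ (a ∈ X ↔ b ∈ X)) →
          Nat.card (H.induce {v | v ∉ X}).ConnectedComponent < X.card) ∧
        (∀ u, ∃ w : H.Walk u u, (∀ v, 1 ≤ w.support.tail.count v ∧ w.support.tail.count v ≤ 2) ∧
          2 * w.length + 2 ≤ 3 * n) ∧
        (∃ F ≤ H, (∀ v, (F.neighborSet v).ncard ≤ 2) ∧ 8 * n ≤ 9 * F.edgeSet.ncard) ∧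
        (5 ≤ n → ∃ (σ : Equiv.Perm (Fin n)) (F : SimpleGraph (Fin n)), F ≤ H ∧
          F ≤ (SimpleGraph.cycleGraph n).map σ.toEmbedding ∧ 4 * n ≤ 5 * F.edgeSet.ncard))) := by
  intro n hn D s t hst M hM
  have key : ∀ (G : SimpleGraph (Fin n)) (y : Fin n → Fin n → ℝ), (∀ a b, y a b ≠ 0 → G.Adj a b) →
      ∀ a b, ¬ G.Adj a b → y a b = 0 := fun G y h a b h1 => by_contra fun h2 => h1 (h a b h2)
  obtain ⟨G, h1, h0, hab, h3⟩ := H47Y.uniform_tree hn D hst hM
  refine ⟨G, h1, h0, ?_, fun hM0 => ⟨(h3 hM0).1, (h3 hM0).2.imp_right ?_⟩⟩
  · rcases hab with ⟨h2, L, ⟨h3, h4, h5, h6⟩, h7⟩ | ⟨h2, y, y0, y1, y2, y3⟩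
    · exact Or.inl ⟨h2, L, ⟨h3, h4, h5, h6⟩, h7⟩
    · exact Or.inr ⟨h2, y, ⟨y1.1, y1.2.1, key G y y1.2.2, y0, y2, y3⟩⟩
  · rintro ⟨H, k1, k2, ⟨z, z1, z2, z3, z4⟩, k3⟩
    exact ⟨H, k1, k2, ⟨z, ⟨z1.2.1, key H z z1.2.2, z2, z3, z4⟩⟩, k3⟩

end Pool.Agent.Results.MP_33911d_co.ThetaThroughEveryEdge
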