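import Pool.Agent.Lib.H36V.Draw8
import Pool.Agent.Lib.H56CV.X

/-!
# Plane 3-connected subdrawings with a 2-factor, relative to any graph `R`, in every simple drawing of `K_n`
# (MP_33911d_co, Q1, partial result)

Q1 asks for a plane subdrawing with exactly `2n - 3` edges and a Hamiltonian cycle in every simple drawing of `K_n`
(Rafla's conjecture asks for the cycle). Here, for EVERY simple drawing `D` of `K_n`, `n ≥ 4`, and EVERY graph `R` on its
vertices (no planarity; the edges of `R` may cross everything): there are plane subdrawings `F ⊆ H ⊆ G` on all vertices,
where `G` contains all edges of `D` which are crossed by no edge, `H` is 2-connected with exactly `2n - 3` edges and `F`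
is a 2-factor without triangles and, for `n ≥ 5`, without 4-cycles (pairwise disjoint cycles of length at least 5 which
together visit all vertices, so at most `n / 5` cycles), such that
(i) `F` is a Hamiltonian cycle which contains `R` and all uncrossed edges (so `H` is as in Q1), or
(ii) `G ∪ R` is 3-connected.
Instances: `R` empty or `R` the graph of the uncrossed edges: `F` is a Hamiltonian cycle in `H` which contains all
uncrossed edges, or `G` itself is plane and 3-connected and contains all uncrossed edges and the 2-factor `F`. If `R` and
the uncrossed edges together have three edges at one vertex, or a triangle, (i) is impossible. So every simple drawing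
has a plane subdrawing `G` with a 2-factor `F` as above which becomes 3-connected when three prescribed edges, at one
vertex or a triangle, are added; and a simple drawing with three uncrossed edges at one vertex, or with an uncrossed
triangle, has a plane 3-connected subdrawing. The drawings are the simple drawings of
`Pool/Agent/SimpleDraw/Defs.lean`: arbitrary continuous simple arcs in the plane `ℂ`, no further hypothesis.

Proof. Let `n ≥ 5`. Say that a graph covers `A` if it has pairwise disjoint cycles of length at least 5 which together
visit all vertices of `A`, or one cycle of any length through all vertices of `A` (`H47G5.Cv`). Add the uncrossed edges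
to `R`. For a plane subdrawing `G` put `E = G ∪ R`, and let `X_G` be the family of the vertex sets `W` with `G[W]`
disconnected and, if `G` is 2-connected, with one of the properties: (U) some graph which is obtained from `G` by
replacing again and again one side of a 2-cut `{x, y}` of `E` by the edge `xy`, in `G` and in `E`, does not cover its
part of `W` (`H36V.U7` with `H36V.K5`); (S) `W` meets two components of `E - {x, y}` for some vertices `x`, `y` outside
`W` (`LD.X2`). It decreases when `G` grows. The functor theorem (`H63T.functor_exact`, on the acyclic complexes of plane
subdrawings of `Pool/Agent/Lib/H98W`) gives for every such family a plane `G` with at least `2n - 3` edges such that the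
order complex of `X_G` is not acyclic. If `G` is not 2-connected, `X_G` is acyclic (`H30D.ac_disc`). Let `G` be
2-connected; then `E` is 2-connected.
(1) If no set has (U), `X_G` is the family of the sets with (S). If `E` has a 2-cut and is not a cycle, some 2-cut `c`
of `E` is crossed by no other one (`LD59.exists_unc`), and `X_G` is acyclic: the sets which meet both sides of `c` form a
cone, and the others can be added to them one by one (`H36R.L1_4`).
(2) If some set has (U), `X_G` is acyclic: the sets `M` with (U) which are connected in `G` are removed from the family
`P` of all sets with (U) or (S) (`H30D.remove_univ`), and the part of `P` below `M` is acyclic (`H36V.l2u7`) by induction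
on the number of vertices: if `E` has a 2-cut and is not a cycle, it has an uncrossed one, `{x, y}` with sides `A` and
`B`; the part of `P` below a set inside `A ∪ {x, y}` is the same in the smaller graphs `G - B + xy`, `E - B + xy`
(`H36V.u7_side`, `H30D.x2_side'`, `H77D5.cv_red`), and if `M` meets both sides, the part of `P` below `M` is composed of
a cone and the parts below the two sides of `M` (`H30D.step_i`). If `E` has no 2-cut, only the covering in `G` matters:
in every 2-connected graph the covered sets have an exchange property (`H56CV.exCv`; alternating paths for
cycles of length at least 5, `H9TP.exch5_set`, and cycles of length at most 4 which are rerouted through the rest of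
`G`), and this makes the family of the sets below `M` which are not covered acyclic (`H96TF.ac_nf`). If `E` is a cycle,
then `E = G`.
So for some plane 2-connected `G` with at least `2n - 3` edges either `G` contains a Hamiltonian cycle which contains
`R`, or `E` is 3-connected and `G` covers all vertices (`H36V.formD8`); as `n ≥ 5`, a cycle through all vertices has
length at least 5. By shortest ears `G` contains a 2-connected `H` with exactly `2n - 3` edges and with the same `F`
(`H63T.trim_exact`). At the end the uncrossed edges are added to `G`. For `n = 4` the same proof with cycles of length at
least 4 (`H75U.Cov4`, `H36V.formD7`).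
-/

set_option autoImplicit false

namespace Pool.Agent.Results.MP_33911d_co.ThreeConnectedTwoFactor

open SimpleDraw

/-- The edges of `D` which are crossed by no edge: they meet every other edge at most in a common end-vertex. -/
def uncrossed {n : ℕ} (D : SimpleDrawing n) : SimpleGraph (Fin n) where
  Adj i j := i ≠ j ∧ ∀ k l, k ≠ l → s(i, j) ≠ s(k, l) → ∀ p ∈ D.curve i j ∩ D.curve k l,
    ∃ v, (v = i ∨ v = j) ∧ (v = k ∨ v = l) ∧ p = D.pt v
  symm := ⟨fun i j h => by
    refine ⟨h.1.symm, fun k l hkl hne p hp => ?_⟩
    rw [Sym2.eq_swap] at hne
    rw [D.curve_symm j i] at hp
    obtain ⟨v, h1, h2, h3⟩ := h.2 k l hkl hne p hp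
    exact ⟨v, h1.symm, h2, h3⟩⟩
  loopless := ⟨fun i h => h.1 rfl⟩

/-- **Main result.** For every simple drawing `D` of `K_n`, `n ≥ 4`, and every graph `R` on the vertices there are
graphs `F ≤ H ≤ G` on all `n` vertices such that `G` is a plane subdrawing of `D` and contains all uncrossed edges, `H`
is 2-connected (`H` is connected, and stays connected when one vertex is removed) and has exactly `2n - 3` edges, every
vertex has exactly two neighbours in `F`, every cycle of `F` has length at least 5 (at least 4 if `n = 4`), and
(i) `F` is a Hamiltonian cycle which contains `R` and all uncrossed edges, or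
(ii) `G ∪ R` is 3-connected (`G ∪ R` without any two vertices is connected). -/
theorem result : ∀ (n : ℕ), 4 ≤ n → ∀ (D : SimpleDrawing n) (R : SimpleGraph (Fin n)),
    ∃ G H F : SimpleGraph (Fin n), D.Plane G ∧ uncrossed D ≤ G ∧ F ≤ H ∧ H ≤ G ∧
    H.Connected ∧ (∀ v : Fin n, (H.induce {w | w ≠ v}).Connected) ∧ H.edgeSet.ncard = 2 * n - 3 ∧
    (∀ v : Fin n, (F.neighborSet v).ncard = 2) ∧
    (∀ (v : Fin n) (c : F.Walk v v), c.IsCycle → min n 5 ≤ c.length) ∧
    ((R ⊔ uncrossed D ≤ F ∧ ∃ (v : Fin n) (c : F.Walk v v), c.IsHamiltonianCycle) ∨
      ∀ u v : Fin n, ((G ⊔ R).induce {w | w ≠ u ∧ w ≠ v}).Connected) := by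
  intro n hn D R
  exact H36V.mainA (fun _ _ _ _ _ _ _ => H56CV.exCv) hn D R (uncrossed D) fun i j h => h.2

end Pool.Agent.Results.MP_33911d_co.ThreeConnectedTwoFactor
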